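import Pool.Agent.helper45.BR.Spec

set_option autoImplicit false

open Complex Metric Set Filter Topology MeasureTheory MPS Pool.Agent.helper98.ILF
  Pool.Agent.helper16.Multibrot

noncomputable section

namespace BR

theorem CMP_cont (n : ℕ) (c : ℂ) : Continuous (fc n c) := by
  change Continuous (fun w : ℂ => w ^ n + c)
  fun_prop

/-- Components of the interior of the filled Julia set. -/
theorem CMP (hBAS : BAS_stmt) : CMP_stmt := by
  intro n c U hn hc hU
  obtain ⟨z₀, hz₀, rfl⟩ := hU
  obtain ⟨hK4, -, hWf, -, -⟩ := hBAS n c hn hc
  set W : Set ℂ := interior (filled n c) with hW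
  have hWo : IsOpen W := isOpen_interior
  have hsub : ∀ z, connectedComponentIn W z ⊆ W := fun z => connectedComponentIn_subset _ _
  have hopen : ∀ z, IsOpen (connectedComponentIn W z) := fun z => hWo.connectedComponentIn
  have hbig : ∀ S ⊆ W, IsPreconnected S → (S ∩ connectedComponentIn W z₀).Nonempty →
      S ⊆ connectedComponentIn W z₀ := by
    rintro S hS hSc ⟨x, hxS, hxU⟩
    rw [connectedComponentIn_eq hxU]
    exact hSc.subset_connectedComponentIn hxS hS
  refine ⟨hopen z₀, isConnected_connectedComponentIn_iff.2 hz₀, hsub z₀,
    (hsub z₀).trans (interior_subset.trans hK4), hbig, ?_, ?_, ?_⟩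
  · intro x hx
    have hxcl : x ∈ closure (connectedComponentIn W z₀) := hx.1
    refine ⟨?_, fun hxW => ?_⟩
    · have h1 : closure (connectedComponentIn W z₀) ⊆ filled n c :=
        closure_minimal ((hsub z₀).trans interior_subset) (isClosed_filled n c)
      exact h1 hxcl
    · have hxC : x ∈ connectedComponentIn W x := mem_connectedComponentIn hxW
      have hmeet : (connectedComponentIn W x ∩ connectedComponentIn W z₀).Nonempty :=
        mem_closure_iff.1 hxcl _ (hopen x) hxC
      have h2 := hbig _ (hsub x) isPreconnected_connectedComponentIn hmeet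
      have h3 : x ∈ interior (connectedComponentIn W z₀) := by
        rw [(hopen z₀).interior_eq]
        exact h2 hxC
      exact hx.2 h3
  · rintro U' ⟨z₁, -, rfl⟩
    by_cases hd : Disjoint (connectedComponentIn W z₀) (connectedComponentIn W z₁)
    · exact Or.inr hd
    · left
      rw [Set.not_disjoint_iff] at hd
      obtain ⟨x, hx0, hx1⟩ := hd
      rw [connectedComponentIn_eq hx0, connectedComponentIn_eq hx1]
  · intro k z hz
    have hmaps : ∀ j, ∀ x ∈ W, (fc n c)^[j] x ∈ W := by
      intro j
      induction j with
      | zero => intro x hx; exact hx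
      | succ j ih =>
        intro x hx
        rw [Function.iterate_succ_apply']
        exact (hWf _).1 (ih x hx)
    refine IsPreconnected.subset_connectedComponentIn ?_ ⟨z, hz, rfl⟩ ?_
    · exact isPreconnected_connectedComponentIn.image _
        ((CMP_cont n c).iterate k).continuousOn
    · rintro _ ⟨x, hx, rfl⟩
      exact hmaps k x (hsub z₀ hx)

end BR
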