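import Pool.Agent.helper45.BR.Spec

set_option autoImplicit false

open Complex Metric Set Filter Topology MeasureTheory MPS Pool.Agent.helper98.ILF
  Pool.Agent.helper16.Multibrot

noncomputable section

namespace BR

theorem IVM_norm (w : ℂ) : ‖(starRingEnd ℂ) w / w‖ ≤ 1 := by
  rw [norm_div, RCLike.norm_conj]
  exact div_self_le_one _

/-- Invariance from the functional equation of the Cauchy transform. -/
theorem IVM (hPBK : PBK_stmt) (hCTB : NLF.CTB_stmt) (hCT0 : NLF.CT0_stmt) : IVM_stmt := by
  intro n c μ hn hc hmeas hbd hsupp hfun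
  set μ' : ℂ → ℂ := fun z => μ (z ^ n + c) * (starRingEnd ℂ) (fd n z) / fd n z with hμ'
  have hbd' : ∀ z, ‖μ' z‖ ≤ 1 := by
    intro z
    have h1 : μ' z = μ (z ^ n + c) * ((starRingEnd ℂ) (fd n z) / fd n z) := by
      simp only [hμ']; rw [mul_div_assoc]
    rw [h1, norm_mul]
    have h2 := hbd (z ^ n + c)
    have h3 := IVM_norm (fd n z)
    have h4 := norm_nonneg (μ (z ^ n + c))
    have h5 := norm_nonneg ((starRingEnd ℂ) (fd n z) / fd n z)
    nlinarith
  have hsupp' : ∀ z, μ' z ≠ 0 → ‖z‖ < 4 := by
    intro z hz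
    have h1 : μ (z ^ n + c) ≠ 0 := by
      intro h0
      apply hz
      simp only [hμ', h0, zero_mul, zero_div]
    have h2 := hsupp _ h1
    by_contra hcon
    push Not at hcon
    have h3 : ‖z‖ ^ 2 ≤ ‖z‖ ^ n := pow_le_pow_right₀ (by linarith) hn
    have h4 : ‖z ^ n‖ - ‖c‖ ≤ ‖z ^ n + c‖ := by
      have := norm_sub_le (z ^ n + c) c
      rw [add_sub_cancel_right] at this
      linarith
    rw [norm_pow] at h4
    nlinarith
  have hfdm : Measurable (fun z => fd n z) := by
    have : Continuous (fun z => fd n z) := by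
      unfold fd
      fun_prop
    exact this.measurable
  have hmeas' : Measurable μ' := by
    have h1 : Measurable (fun z : ℂ => μ (z ^ n + c)) :=
      hmeas.comp (by fun_prop : Continuous fun z : ℂ => z ^ n + c).measurable
    have h2 : Measurable (fun z : ℂ => (starRingEnd ℂ) (fd n z)) :=
      (Complex.continuous_conj.measurable).comp hfdm
    exact (h1.mul h2).div hfdm
  obtain ⟨hI, -, hC, -⟩ := hCTB μ hmeas hbd hsupp
  obtain ⟨hI', -, hC', -⟩ := hCTB μ' hmeas' hbd' hsupp'
  have heq0 : ∀ b : ℂ, b ≠ 0 → NLF.CT μ' b = NLF.CT μ b := by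
    intro b hb
    have h1 := hPBK n c μ hn hc hmeas hbd hsupp b
    have h2 := hfun b
    have h3 : fd n b ≠ 0 := by
      unfold fd
      have : (n : ℂ) ≠ 0 := by
        have : n ≠ 0 := by omega
        exact_mod_cast this
      exact mul_ne_zero this (pow_ne_zero _ hb)
    have h4 : fd n b * NLF.CT μ' b = fd n b * NLF.CT μ b := by
      rw [h2]
      exact h1
    exact mul_left_cancel₀ h3 h4
  have heq : ∀ b : ℂ, NLF.CT μ' b = NLF.CT μ b := by
    have hd : Dense ({0}ᶜ : Set ℂ) := dense_compl_singleton 0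
    have := Continuous.ext_on hd hC' hC (fun b hb => heq0 b hb)
    exact fun b => congrFun this b
  have hz := hCT0 (fun z => (μ' z - μ z) / 2) ((hmeas'.sub hmeas).div_const 2) ?_ ?_ ?_
  · filter_upwards [hz] with z hz
    have h1 : μ' z - μ z = 0 := by
      have h2 := hz
      simp only [div_eq_zero_iff] at h2
      rcases h2 with h2 | h2
      · exact h2
      · exact absurd h2 two_ne_zero
    exact sub_eq_zero.1 h1
  · intro z
    rw [norm_div]
    have h1 := norm_sub_le (μ' z) (μ z)
    have h2 : ‖(2 : ℂ)‖ = 2 := by simp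
    rw [h2, div_le_one (by norm_num)]
    linarith [hbd z, hbd' z]
  · intro z hz
    by_cases h1 : μ z = 0
    · apply hsupp'
      intro h2
      apply hz
      simp only [h1, h2, sub_zero, zero_div]
    · exact hsupp z h1
  · intro b
    have h1 : NLF.CT (fun z => (μ' z - μ z) / 2) b = (NLF.CT μ' b - NLF.CT μ b) / 2 := by
      unfold NLF.CT
      rw [← integral_sub (hI' b) (hI b), ← integral_div]
      refine integral_congr_ae (Eventually.of_forall fun z => ?_)
      simp only
      ring
    rw [h1, heq b, sub_self, zero_div]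

end BR
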