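import Pool.Agent.helper45.BR.Spec
import Pool.Agent.helper98.ILF.Julia

/-! # Project br: module RLB: functional equation and vanishing on the Julia set for `BF`
(copies of the modules IP, REL, JUL of project nl) -/

set_option autoImplicit false

open Complex Metric Set Filter Topology MeasureTheory MPS Pool.Agent.helper98.ILF
  Pool.Agent.helper16.Multibrot NLF

noncomputable section

namespace BR

theorem RLB_root (n : ℕ) (hn : n ≠ 0) (c z : ℂ) (j : ℕ) :
    (om n ^ j * rt n (z - c)) ^ n + c = z := by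
  have hn' : (n : ℂ) ≠ 0 := Nat.cast_ne_zero.mpr hn
  have h1 : om n ^ n = 1 := by
    rw [om, ← Complex.exp_nat_mul]
    rw [mul_div_cancel₀ _ hn']
    exact Complex.exp_two_pi_mul_I
  have h2 : rt n (z - c) ^ n = z - c := by
    rw [rt, one_div]
    exact Complex.cpow_nat_inv_pow _ hn
  rw [mul_pow, ← pow_mul, mul_comm j n, pow_mul, h1, one_pow, one_mul, h2]
  ring

theorem RLB_IP (hCB : NLF.CB_stmt) (hNB : NLF.NB_stmt) (n : ℕ) (c : ℂ) (μ : ℂ → ℂ) (hn : 2 ≤ n)
    (hμ : BF n c μ) (q : ℂ → ℂ) (K : Set ℂ) (hq : Measurable q) (hK : MeasurableSet K)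
    (hint : IntegrableOn (fun y => μ y * q y) {y : ℂ | y ^ n + c ∈ K}) :
    IntegrableOn (fun z => μ z * TQ n c q z) K ∧
      ∫ z in K, μ z * TQ n c q z = ∫ y in {y : ℂ | y ^ n + c ∈ K}, μ y * q y := by
  have hn0 : n ≠ 0 := by omega
  obtain ⟨h1, h2⟩ := hCB n c (by omega) (fun y => μ y * q y) K (hμ.meas.mul hq) hK hint
  have hnull : volume {w : ℂ | ¬ (μ (w ^ n + c) * (starRingEnd ℂ) (fd n w) / fd n w = μ w)} = 0 :=
    ae_iff.mp hμ.inv
  have hNB' := hNB n c (by omega) _ hnull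
  have hne : ∀ᵐ z : ℂ, z ≠ c := by
    rw [ae_iff]
    simp only [ne_eq, not_not, setOf_eq_eq_singleton]
    exact measure_singleton c
  have hae : ∀ᵐ z : ℂ, ∑ j ∈ Finset.range n,
      (fun y => μ y * q y) (om n ^ j * rt n (z - c)) /
        ((‖fd n (om n ^ j * rt n (z - c))‖ ^ 2 : ℝ) : ℂ) = μ z * TQ n c q z := by
    filter_upwards [hNB', hne] with z hz hzc
    rw [TQ, Finset.mul_sum]
    refine Finset.sum_congr rfl fun j hj => ?_
    have hj' := hz j (Finset.mem_range.mp hj)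
    simp only [mem_setOf_eq, not_not] at hj'
    set y := om n ^ j * rt n (z - c) with hy
    have hyz : y ^ n + c = z := RLB_root n hn0 c z j
    have hy0 : y ≠ 0 := by
      intro h
      rw [h, zero_pow hn0, zero_add] at hyz
      exact hzc hyz.symm
    have hfd : fd n y ≠ 0 :=
      mul_ne_zero (Nat.cast_ne_zero.mpr hn0) (pow_ne_zero _ hy0)
    have hnorm : ((‖fd n y‖ ^ 2 : ℝ) : ℂ) = fd n y * (starRingEnd ℂ) (fd n y) := by
      rw [Complex.mul_conj, Complex.normSq_eq_norm_sq]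
    have hcj : (starRingEnd ℂ) (fd n y) ≠ 0 := by
      rwa [Ne, map_eq_zero]
    rw [hyz] at hj'
    show μ y * q y / ((‖fd n y‖ ^ 2 : ℝ) : ℂ) = μ z * (q y / fd n y ^ 2)
    rw [hnorm, ← hj']
    field_simp
  have haeK := ae_restrict_of_ae (s := K) hae
  exact ⟨h1.congr haeK, by rw [← h2]; exact (integral_congr_ae haeK).symm⟩

theorem RLB_rt (n : ℕ) (hn : 2 ≤ n) (z : ℂ) : rt n z ^ n = z := by
  unfold rt
  rw [one_div]
  exact Complex.cpow_nat_inv_pow z (by omega)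

theorem RLB_REL (hCB : NLF.CB_stmt) (hNB : NLF.NB_stmt) (hCTB : NLF.CTB_stmt)
    (hT1 : NLF.T1_stmt) (n : ℕ) (c : ℂ) (μ : ℂ → ℂ) (hn : 2 ≤ n) (hLF : BF n c μ) (b : ℂ) :
    fd n b * CT μ b = CT μ (b ^ n + c) - CT μ c := by
  obtain ⟨hint, -, -, -⟩ := hCTB μ hLF.meas hLF.bd hLF.supp
  by_cases hb : b = 0
  · subst hb
    have h1 : fd n (0 : ℂ) = 0 := by
      unfold fd
      rw [zero_pow (by omega), mul_zero]
    rw [h1, zero_pow (by omega), zero_add, zero_mul, sub_self]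
  have hfd : fd n b ≠ 0 := by
    unfold fd
    have : (n : ℂ) ≠ 0 := by exact_mod_cast (by omega : n ≠ 0)
    exact mul_ne_zero this (pow_ne_zero _ hb)
  have hset : {y : ℂ | y ^ n + c ∈ (univ : Set ℂ)} = univ := by
    ext y
    simp
  have hI : (fun y => μ y * (1 / (y - b))) = fun y => μ y / (y - b) := by
    funext y
    rw [mul_one_div]
  obtain ⟨-, h2⟩ := RLB_IP hCB hNB n c μ hn hLF (fun z => 1 / (z - b)) univ (by fun_prop)
    MeasurableSet.univ (by
      rw [hset, integrableOn_univ, hI]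
      exact hint b)
  rw [hset, setIntegral_univ, setIntegral_univ, hI] at h2
  have h3 : (fun z => μ z * TQ n c (fun z => 1 / (z - b)) z) =ᵐ[volume]
      fun z => (1 / fd n b) * (μ z / (z - (b ^ n + c)) - μ z / (z - c)) := by
    have hne : ∀ a : ℂ, ∀ᵐ z : ℂ, z ≠ a := by
      intro a
      rw [ae_iff]
      simp
    filter_upwards [hne c, hne (b ^ n + c)] with z hz1 hz2
    have h4 : rt n (z - c) ^ n = z - c := RLB_rt n hn _
    have h5 : rt n (z - c) ≠ 0 := by
      intro h0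
      rw [h0, zero_pow (by omega)] at h4
      exact hz1 (sub_eq_zero.mp h4.symm)
    have h6 : rt n (z - c) ^ n ≠ b ^ n := by
      rw [h4]
      intro h0
      exact hz2 (by rw [← h0]; ring)
    have h7 := hT1 n (rt n (z - c)) b hn h5 hb h6
    show μ z * TQ n c (fun z => 1 / (z - b)) z = _
    unfold TQ
    rw [h7, h4, show z - c - b ^ n = z - (b ^ n + c) by ring]
    ring
  rw [integral_congr_ae h3, integral_const_mul,
    integral_sub (hint (b ^ n + c)) (hint c)] at h2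
  have h8 : CT μ b = (1 / fd n b) * (CT μ (b ^ n + c) - CT μ c) := h2.symm
  rw [h8]
  field_simp

theorem RLB_diff (n : ℕ) (c : ℂ) (k : ℕ) : Differentiable ℂ ((fun z : ℂ => z ^ n + c)^[k]) := by
  refine Differentiable.iterate ?_ k
  fun_prop

theorem RLB_deriv (n : ℕ) (c b : ℂ) : deriv (fun z : ℂ => z ^ n + c) b = fd n b := by
  rw [deriv_add_const, deriv_pow_field]
  rfl

theorem RLB_iter {n : ℕ} {c : ℂ} {μ : ℂ → ℂ}
    (hREL : ∀ b : ℂ, fd n b * CT μ b = CT μ (b ^ n + c) - CT μ c) (h0 : CT μ c = 0) (k : ℕ) : ∀ b : ℂ,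
    deriv ((fun z : ℂ => z ^ n + c)^[k]) b * CT μ b = CT μ ((fun z : ℂ => z ^ n + c)^[k] b) := by
  induction k with
  | zero =>
    intro b
    simp
  | succ k ih =>
    intro b
    have h1 := hREL b
    rw [h0, sub_zero] at h1
    rw [Function.iterate_succ, deriv_comp b ((RLB_diff n c k) _) (by fun_prop), RLB_deriv, mul_assoc,
      h1, ih, Function.comp_apply]

/-- JUL: if `a(c) = 0` then `a` vanishes on the Julia set. -/
theorem RLB_JUL (hCTB : NLF.CTB_stmt) (n : ℕ) (c : ℂ) (μ : ℂ → ℂ) (hμ : BF n c μ)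
    (hREL : ∀ b : ℂ, fd n b * CT μ b = CT μ (b ^ n + c) - CT μ c) (h0 : CT μ c = 0) (b : ℂ)
    (hb : b ∈ juliaSet (fun z : ℂ => z ^ n + c)) : CT μ b = 0 := by
  by_contra hne
  obtain ⟨_, hbd, hcont, _⟩ := hCTB μ hμ.meas hμ.bd hμ.supp
  have hm : 0 < ‖CT μ b‖ / 2 := by
    have := norm_pos_iff.2 hne
    positivity
  set m : ℝ := ‖CT μ b‖ / 2 with hm'
  have hlt : m < ‖CT μ b‖ := by
    rw [hm']
    linarith
  have hev : ∀ᶠ w in 𝓝 b, m < ‖CT μ w‖ :=
    (hcont.norm.continuousAt (x := b)).eventually_const_lt hlt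
  obtain ⟨δ, hδ, hball⟩ := Metric.eventually_nhds_iff_ball.1 hev
  set f : ℂ → ℂ := fun z : ℂ => z ^ n + c with hf
  set L : ℝ := 80 / m with hL
  have hL0 : 0 ≤ L := by positivity
  have hder : ∀ (k : ℕ), ∀ w ∈ ball b δ, ‖deriv (f^[k]) w‖ ≤ L := by
    intro k w hw
    have h1 := RLB_iter hREL h0 k w
    have h2 : ‖deriv (f^[k]) w‖ * ‖CT μ w‖ ≤ 80 := by
      rw [← norm_mul, h1]
      exact hbd _
    have h3 := hball w hw
    rw [hL, le_div_iff₀ hm]
    calc ‖deriv (f^[k]) w‖ * m ≤ ‖deriv (f^[k]) w‖ * ‖CT μ w‖ := by gcongr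
      _ ≤ 80 := h2
  have hlip : ∀ (k : ℕ), ∀ w ∈ ball b δ, ∀ w' ∈ ball b δ,
      ‖f^[k] w - f^[k] w'‖ ≤ L * ‖w - w'‖ := by
    intro k w hw w' hw'
    exact (convex_ball b δ).norm_image_sub_le_of_norm_deriv_le
      (fun x _ => (RLB_diff n c k) x) (fun x hx => hder k x hx) hw' hw
  refine hb (mem_interior.2 ⟨ball b δ, ?_, isOpen_ball, mem_ball_self hδ⟩)
  intro z hz ε hε
  have hz' : 0 < δ - dist z b := by
    rw [mem_ball] at hz
    linarith
  refine ⟨min (δ - dist z b) (ε / (L + 1)), lt_min hz' (by positivity), fun w hw k => ?_⟩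
  have hw1 : ‖w - z‖ < δ - dist z b := hw.trans_le (min_le_left _ _)
  have hw2 : ‖w - z‖ < ε / (L + 1) := hw.trans_le (min_le_right _ _)
  have hwb : w ∈ ball b δ := by
    rw [mem_ball]
    have := dist_triangle w z b
    rw [dist_eq_norm w z] at this
    linarith
  calc chordal (f^[k] w) (f^[k] z) ≤ ‖f^[k] w - f^[k] z‖ := chordal_le _ _
    _ ≤ L * ‖w - z‖ := hlip k w hwb z hz
    _ ≤ (L + 1) * ‖w - z‖ := by
      gcongr
      linarith
    _ < ε := by
      rw [lt_div_iff₀ (by positivity)] at hw2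
      linarith

/-- The functional equation and vanishing on the Julia set. -/
theorem RLB (hCB : NLF.CB_stmt) (hNB : NLF.NB_stmt) (hCTB : NLF.CTB_stmt) (hT1 : NLF.T1_stmt) :
    RLB_stmt := by
  intro n c μ hn hμ
  have hREL := RLB_REL hCB hNB hCTB hT1 n c μ hn hμ
  exact ⟨hREL, fun h0 b hb => RLB_JUL hCTB n c μ hμ hREL h0 b hb⟩

end BR
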